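import Pool.Agent.helper16.EXC.Spec3

/-! Row ZKS of project EXC (MP_561ff4_al), block 3. -/

set_option autoImplicit false

open Finset

namespace Pool.Agent.EXC

theorem ZKS (hEXF : EXF_stmt) (hXAU : XAU_stmt) (hINV : INV_stmt) (hUNQ : UNQ_stmt) (hNBR : NBR_stmt) : ZKS_stmt := by
  intro n C _ F _ j0 θ δ hE x σ a b c d ha hb hab hc hd hx1 hx2
  have hN := (hNBR n C j0 θ δ hE).1
  obtain ⟨-, -, hex, -⟩ := hEXF n C F hN
  obtain ⟨hXa, -, -, -, hexa, -, -, hcja, -⟩ := hex a ha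
  obtain ⟨hXb, -, -, -, hexb, -, -, hcjb, -⟩ := hex b hb
  obtain ⟨-, -, hsym, hanti, -⟩ := hINV n C F
  obtain ⟨-, -, -, hsca⟩ := hXAU n C F a hXa
  set κ : F := fm C a b with hκ
  -- the group elements
  obtain ⟨A1, hA1m, hA1⟩ := hexa 1
  obtain ⟨B1, hB1m, hB1⟩ := hexb 1
  obtain ⟨Bv, hBvm, hBv⟩ := hexb (-κ⁻¹)
  obtain ⟨Aκ, hAκm, hAκ⟩ := hexa κ
  let gA1 : EG C F := ⟨A1, hA1m⟩
  let gB1 : EG C F := ⟨B1, hB1m⟩
  let gBv : EG C F := ⟨Bv, hBvm⟩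
  let gAκ : EG C F := ⟨Aκ, hAκm⟩
  have hba : fm C b a = κ := by rw [hsym b a]
  have hbrba : br C b a = -br C a b := hanti b a
  -- e = κ e'
  have he : A1 b = κ • Bv a := by
    rw [hA1 b, hBv a, xe, xe, hba, hbrba, ← hκ]
    have h2 : κ * κ⁻¹ = 1 := mul_inv_cancel₀ hab
    simp only [smul_add, smul_smul, smul_neg, neg_smul, neg_neg]
    have e1 : κ * ((-κ⁻¹) ^ 2 * κ) = 1 := by
      have : κ * ((-κ⁻¹) ^ 2 * κ) = (κ * κ⁻¹) * (κ * κ⁻¹) := by ring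
      rw [this, h2, one_mul]
    rw [e1, h2]
    simp only [one_pow, one_mul, one_smul]
    abel
  -- the relation
  have h1 : IsX C (A1 b) 1 (A1 * B1 * A1⁻¹) := hcjb A1 hA1m 1 B1 hB1
  have h2 : IsX C (Bv a) κ (Bv * Aκ * Bv⁻¹) := hcja Bv hBvm κ Aκ hAκ
  have hXBa : Xtr C (Bv a) := (hex _ ((hex a ha).2.2.1 Bv hBvm)).1
  have heq : A1 * B1 * A1⁻¹ = Bv * Aκ * Bv⁻¹ := by
    refine LinearEquiv.ext fun v => ?_
    rw [h1 v, h2 v, he]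
    have := (hXAU n C F (Bv a) hXBa).2.2.2 κ
    rw [this.2 1 v, mul_one]
  have heqg : gA1 * gB1 * gA1⁻¹ = gBv * gAκ * gBv⁻¹ := Subtype.ext heq
  have heqx : x gA1 * x gB1 * (x gA1)⁻¹ = x gBv * x gAκ * (x gBv)⁻¹ := by
    have := congrArg x heqg
    simpa only [map_mul, map_inv] using this
  -- images
  have i1 : IsX C b (c * σ 1) ((x gA1 : EG C F) : Lm C F ≃ₗ[F] Lm C F) := hx1 1 gA1 hA1
  have i2 : IsX C a (d * σ 1) ((x gB1 : EG C F) : Lm C F ≃ₗ[F] Lm C F) := hx2 1 gB1 hB1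
  have i3 : IsX C a (d * σ (-κ⁻¹)) ((x gBv : EG C F) : Lm C F ≃ₗ[F] Lm C F) := hx2 _ gBv hBv
  have i4 : IsX C b (c * σ κ) ((x gAκ : EG C F) : Lm C F ≃ₗ[F] Lm C F) := hx1 _ gAκ hAκ
  rw [map_one, mul_one] at i1 i2
  set G1 : Lm C F ≃ₗ[F] Lm C F := ((x gA1 : EG C F) : Lm C F ≃ₗ[F] Lm C F) with hG1
  set G2 : Lm C F ≃ₗ[F] Lm C F := ((x gBv : EG C F) : Lm C F ≃ₗ[F] Lm C F) with hG2
  have hG1m : G1 ∈ GE C F := (x gA1).2
  have hG2m : G2 ∈ GE C F := (x gBv).2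
  have j1 : IsX C (G1 a) d (G1 * ((x gB1 : EG C F) : Lm C F ≃ₗ[F] Lm C F) * G1⁻¹) := hcja G1 hG1m d _ i2
  have j2 : IsX C (G2 b) (c * σ κ) (G2 * ((x gAκ : EG C F) : Lm C F ≃ₗ[F] Lm C F) * G2⁻¹) := hcjb G2 hG2m _ _ i4
  have heqx' : G1 * ((x gB1 : EG C F) : Lm C F ≃ₗ[F] Lm C F) * G1⁻¹ =
      G2 * ((x gAκ : EG C F) : Lm C F ≃ₗ[F] Lm C F) * G2⁻¹ := congrArg Subtype.val heqx
  rw [← heqx'] at j2
  have hExG1 : Ex C (G1 a) := (hex a ha).2.2.1 G1 hG1m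
  have hExG2 : Ex C (G2 b) := (hex b hb).2.2.1 G2 hG2m
  have hExd : Ex C (d • G1 a) := (hex _ hExG1).2.2.2.1 d hd
  have j1' : IsX C (d • G1 a) 1 (G1 * ((x gB1 : EG C F) : Lm C F ≃ₗ[F] Lm C F) * G1⁻¹) := by
    intro v
    rw [((hXAU n C F (G1 a) (hex _ hExG1).1).2.2.2 d).2 1 v, mul_one]
    exact j1 v
  have key : d • G1 a = (c * σ κ) • G2 b := hUNQ n C F j0 θ δ hE (d • G1 a) (G2 b) (c * σ κ) _ hExd hExG2 j1' j2
  -- apply the form with a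
  have hfaa : fm C a a = 0 := hXa.ff
  have hfab : fm C a (br C a b) = 0 := by
    have h3 := hXa.inv a b
    rw [hXa.aa, fm_zero_left] at h3
    exact neg_eq_zero.1 h3.symm
  have k1 : fm C a (G1 a) = c ^ 2 * κ * κ := by
    rw [i1 a, xe, fm_add_right, fm_add_right, fm_smul_right, fm_smul_right, hfaa, hba, hbrba, fm_neg_right, hfab]
    ring
  have k2 : fm C a (G2 b) = κ := by
    rw [i3 b, xe, fm_add_right, fm_add_right, fm_smul_right, fm_smul_right, hfab, hfaa]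
    ring
  have k3 := congrArg (fm C a) key
  rw [fm_smul_right, fm_smul_right, k1, k2] at k3
  have k4 : c * κ * (σ κ) = c * κ * (κ * c * d) := by
    linear_combination -k3
  exact mul_left_cancel₀ (mul_ne_zero hc hab) k4

end Pool.Agent.EXC
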